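import Pool.Agent.H17.BO.TargetsC
import Pool.Agent.H17.VG.TargetsC

/-!
# Module EVX of the board bo_modules
-/

set_option autoImplicit false

namespace Pool.Agent.H63.BO.EVX

open MvPolynomial SC Pool.Agent.H27.LV Pool.Agent.H17.VG Pool.Agent.H17.BO

/-- the functional as a linear map -/
private noncomputable def fl {K : Type} [Field K] {n d : ℕ} (y : Mon (n + 1) d → K) :
    MvPolynomial (Fin (n + 1)) K →ₗ[K] K where
  toFun := fnl y
  map_add' G H := by
    unfold fnl
    rw [← Finset.sum_add_distrib]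
    refine Finset.sum_congr rfl fun M _ => ?_
    rw [coeff_add, mul_add]
  map_smul' a G := by
    unfold fnl
    rw [smul_eq_mul, Finset.mul_sum]
    refine Finset.sum_congr rfl fun M _ => ?_
    rw [coeff_smul, smul_eq_mul, RingHom.id_apply]
    ring

theorem pf_EVX (hIP : T_IP) : T_EVX := by
  intro L _ n e x hx y hy
  obtain ⟨p, hp⟩ : ∃ p, x p ≠ 0 := Function.ne_iff.1 hx
  have hp' : x p ^ (e + 1) ≠ 0 := pow_ne_zero _ hp
  refine ⟨fnl y (X p ^ (e + 1)) / x p ^ (e + 1), fun G hG => ?_⟩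
  have h1 : (G - C (eval x G / x p ^ (e + 1)) * X p ^ (e + 1)).IsHomogeneous (e + 1) := by
    refine hG.sub ?_
    have := (isHomogeneous_C (Fin (n + 1)) (eval x G / x p ^ (e + 1))).mul
      ((isHomogeneous_X L p).pow (e + 1))
    simpa using this
  have h2 : eval x (G - C (eval x G / x p ^ (e + 1)) * X p ^ (e + 1)) = 0 := by
    rw [map_sub, map_mul, eval_C, map_pow, eval_X, div_mul_cancel₀ _ hp', sub_self]
  have h3 := hIP L n e x hx _ h1 h2
  have h4 : ∀ H ∈ Submodule.span L {G | ∃ (ξ : Fin (n + 1) → L)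
      (Q : MvPolynomial (Fin (n + 1)) L), ∑ i, ξ i * x i = 0 ∧ Q.IsHomogeneous e ∧
      G = lin ξ * Q}, fl y H = 0 := by
    intro H hH
    refine Submodule.span_induction (p := fun H _ => fl y H = 0) ?_ (map_zero _) ?_ ?_ hH
    · rintro _ ⟨ξ, Q, g1, g2, rfl⟩
      exact hy ξ g1 Q g2
    · intro a b _ _ ha hb
      rw [map_add, ha, hb, add_zero]
    · intro t a _ ha
      rw [map_smul, ha, smul_zero]
  have h5 := h4 _ h3
  rw [map_sub, ← smul_eq_C_mul, map_smul, smul_eq_mul, sub_eq_zero] at h5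
  show fl y G = fl y (X p ^ (e + 1)) / x p ^ (e + 1) * eval x G
  rw [h5]
  ring

end Pool.Agent.H63.BO.EVX
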