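import Pool.Agent.H17.BO.TargetsC

/-!
# Module LSL of the board bo_modules
-/

set_option autoImplicit false

namespace Pool.Agent.H63.BO.LSL

open MvPolynomial SC Pool.Agent.H27.LV Pool.Agent.H17.VG Pool.Agent.H17.BO

theorem pf_LSL : T_LSL := by
  classical
  intro k L ι ρ _ _ _ _ A v hv
  obtain ⟨W, hW⟩ : ∃ W : Submodule k L, W = Submodule.span k (Set.range v) := ⟨_, rfl⟩
  have hfin : Module.Finite k W := by
    rw [hW]
    exact Module.Finite.iff_fg.2 (Submodule.fg_span (Set.finite_range v))
  have hmem : ∀ i, v i ∈ W := fun i => by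
    rw [hW]
    exact Submodule.subset_span ⟨i, rfl⟩
  obtain ⟨N, hN⟩ : ∃ N, N = Module.finrank k W := ⟨_, rfl⟩
  obtain ⟨bs⟩ : Nonempty (Module.Basis (Fin N) k W) := by
    rw [hN]
    exact ⟨Module.finBasis k W⟩
  obtain ⟨c, hc⟩ : ∃ c : Fin N → L, c = fun j => (bs j : L) := ⟨_, rfl⟩
  obtain ⟨w, hw⟩ : ∃ w : Fin N → ι → k, w = fun j i => bs.repr ⟨v i, hmem i⟩ j := ⟨_, rfl⟩
  have hcind : LinearIndependent k c := by
    rw [hc]
    exact bs.linearIndependent.map' W.subtype (Submodule.ker_subtype W)
  have hvi : ∀ i, v i = ∑ j, c j * algebraMap k L (w j i) := by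
    intro i
    have h1 := bs.sum_repr ⟨v i, hmem i⟩
    have h2 := congrArg (fun z : W => (z : L)) h1
    simp only [Submodule.coe_sum, Submodule.coe_smul] at h2
    rw [← h2, hc, hw]
    refine Finset.sum_congr rfl fun j _ => ?_
    rw [Algebra.smul_def, mul_comm]
  refine ⟨N, w, c, ?_, hcind, ?_, hvi⟩
  · -- independence of the w
    rw [Fintype.linearIndependent_iff]
    intro g hg
    have h3 : ∀ i, ∑ j, g j * w j i = 0 := by
      intro i
      have := congrFun hg i
      simpa [Finset.sum_apply, Pi.smul_apply, smul_eq_mul] using this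
    -- the functional `∑ g j * repr j` vanishes on all v i, hence on W
    obtain ⟨f, hf⟩ : ∃ f : W →ₗ[k] k, ∀ z, f z = ∑ j, g j * bs.repr z j := by
      refine ⟨∑ j, g j • (Finsupp.lapply j ∘ₗ bs.repr.toLinearMap), fun z => ?_⟩
      simp [LinearMap.sum_apply]
    have h4 : ∀ z : W, f z = 0 := by
      intro z
      have hz := z.2
      have h5 : ∀ x (hx : x ∈ Submodule.span k (Set.range v)), ∀ hx' : x ∈ W, f ⟨x, hx'⟩ = 0 := by
        intro x hx
        refine Submodule.span_induction (p := fun x _ => ∀ hx' : x ∈ W, f ⟨x, hx'⟩ = 0)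
          ?_ ?_ ?_ ?_ hx
        · rintro _ ⟨i, rfl⟩ hx'
          rw [hf]
          have := h3 i
          rw [hw] at this
          exact this
        · intro hx'
          exact map_zero f
        · intro a b ha hb h1 h2 hx'
          have ha' : a ∈ W := by rw [hW]; exact ha
          have hb' : b ∈ W := by rw [hW]; exact hb
          have h6 : (⟨a + b, hx'⟩ : W) = ⟨a, ha'⟩ + ⟨b, hb'⟩ := rfl
          rw [h6, map_add, h1 ha', h2 hb', add_zero]
        · intro t a ha h1 hx'
          have ha' : a ∈ W := by rw [hW]; exact ha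
          have h6 : (⟨t • a, hx'⟩ : W) = t • ⟨a, ha'⟩ := rfl
          rw [h6, map_smul, h1 ha', smul_zero]
      have hz' : (z : L) ∈ Submodule.span k (Set.range v) := by rw [← hW]; exact hz
      exact h5 z hz' hz
    intro j
    have h7 := h4 (bs j)
    rw [hf] at h7
    simpa [Module.Basis.repr_self, Finsupp.single_apply] using h7
  · intro j r
    have h1 : ∑ j, (∑ i, A r i * w j i) • c j = 0 := by
      have h2 := hv r
      rw [← h2]
      calc ∑ j, (∑ i, A r i * w j i) • c j =
            ∑ j, ∑ i, algebraMap k L (A r i) * (c j * algebraMap k L (w j i)) := by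
            refine Finset.sum_congr rfl fun j _ => ?_
            rw [Algebra.smul_def, map_sum, Finset.sum_mul]
            refine Finset.sum_congr rfl fun i _ => ?_
            rw [map_mul]
            ring
        _ = ∑ i, ∑ j, algebraMap k L (A r i) * (c j * algebraMap k L (w j i)) :=
            Finset.sum_comm
        _ = _ := by
            refine Finset.sum_congr rfl fun i _ => ?_
            rw [hvi i, Finset.mul_sum]
    exact Fintype.linearIndependent_iff.1 hcind _ h1 j

end Pool.Agent.H63.BO.LSL
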