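import Pool.Agent.H17.BO.TargetsC

/-!
# Module OLN of the board bo_modules
-/

set_option autoImplicit false

namespace Pool.Agent.H63.BO.OLN

open MvPolynomial SC Pool.Agent.H27.LV Pool.Agent.H17.VG Pool.Agent.H17.BO

private theorem key {k L : Type} [Field k] [Field L] [Algebra k L] {e a b : k} {x y z : L}
    (he : e ≠ 0) (h : algebraMap k L e * x + (algebraMap k L a * y + algebraMap k L b * z) = 0) :
    x = y * algebraMap k L (-a / e) + z * algebraMap k L (-b / e) := by
  have he' : algebraMap k L e ≠ 0 := (map_ne_zero _).2 he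
  rw [map_div₀, map_div₀, map_neg, map_neg]
  field_simp
  linear_combination h

theorem pf_OLN : T_OLN := by
  intro k L _ _ _ x η hη h
  obtain ⟨p, hp⟩ : ∃ p, η p ≠ 0 := Function.ne_iff.1 hη
  rw [Fin.sum_univ_three] at h
  fin_cases p
  · refine ⟨![-(η 1) / η 0, 1, 0], ![-(η 2) / η 0, 0, 1], x 1, x 2, fun i => ?_⟩
    fin_cases i
    · show x 0 = x 1 * algebraMap k L (-(η 1) / η 0) + x 2 * algebraMap k L (-(η 2) / η 0)
      exact key hp (by linear_combination h)
    · simp
    · simp
  · refine ⟨![1, -(η 0) / η 1, 0], ![0, -(η 2) / η 1, 1], x 0, x 2, fun i => ?_⟩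
    fin_cases i
    · simp
    · show x 1 = x 0 * algebraMap k L (-(η 0) / η 1) + x 2 * algebraMap k L (-(η 2) / η 1)
      exact key hp (by linear_combination h)
    · simp
  · refine ⟨![1, 0, -(η 0) / η 2], ![0, 1, -(η 1) / η 2], x 0, x 1, fun i => ?_⟩
    fin_cases i
    · simp
    · simp
    · show x 2 = x 0 * algebraMap k L (-(η 0) / η 2) + x 1 * algebraMap k L (-(η 1) / η 2)
      exact key hp (by linear_combination h)

end Pool.Agent.H63.BO.OLN
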